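import Pool.Agent.H77.ST.IWM

/-!
# Independent switches over ZF

For every `n` there are sentences `φ 0, …, φ (n-1)` of set theory which are independent switches
over ZF. The first part of the theorem says this for all countable models of ZF and all their
generic extensions. The second part is the formalisation by means of the forcing relation: for
each pattern `ε` there is a sentence `χ ε` expressing (in all structures) that some condition of
some poset forces the pattern `ε`, and in every model of ZF, countable or not, every condition
of every poset forces `χ ε`.
-/

namespace Pool.Agent.Results.MP_6baf15_lc.IndependentSwitches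

open STZ ST.IW

/-- For every `n` there are `n` independent switches over ZF. -/
theorem result (n : ℕ) : ∃ φ : Fin n → Fml 0,
    (∀ (M : Type) (D : M → M → Prop), Countable M → ZF D → IndepSwitches φ D) ∧
    ∃ χ : (Fin n → Bool) → Fml 0,
      (∀ (ε : Fin n → Bool) (N : Type) (E : N → N → Prop),
        Sat E (χ ε) Fin.elim0 ↔ CanForce E φ ε) ∧
      ∀ (ε : Fin n → Bool) (N : Type) (E : N → N → Prop) (P le one p : N), ZF E →
        IsPoset E P le one → E p P → Forces E P le (χ ε) p Fin.elim0 :=
  ST.IW.main n

end Pool.Agent.Results.MP_6baf15_lc.IndependentSwitches
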